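import Pool.Agent.H92.Enneper

set_option autoImplicit false

open Pool.Agent.H92.Enneper

/-- In a bounded strongly convex domain of `ℝ³` with polynomial defining function no extremal
conformal harmonic disc for the point `0` and the frame `(e₀, e₁)` is unique. -/
theorem Pool.Agent.Results.MP_a50f86_an.StronglyConvex.result :
    ∃ ρ : EuclideanSpace ℝ (Fin 3) → ℝ,
      (∀ x, ρ x = 40 * (x 0 ^ 4 + x 1 ^ 4) + ‖x‖ ^ 2 - 30) ∧
      ConvexOn ℝ Set.univ (fun x => ρ x - ‖x‖ ^ 2) ∧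
      Bornology.IsBounded {x | ρ x < 0} ∧ ρ 0 < 0 ∧
      (∀ x ∈ frontier {x | ρ x < 0}, fderiv ℝ ρ x ≠ 0) ∧
      ∀ f : ℂ → EuclideanSpace ℝ (Fin 3),
        IsExt {x | ρ x < 0} 0 !₂[1, 0, 0] !₂[0, 1, 0] f →
        ∃ h : ℂ → EuclideanSpace ℝ (Fin 3),
          IsExt {x | ρ x < 0} 0 !₂[1, 0, 0] !₂[0, 1, 0] h ∧
          ¬ Set.EqOn h f (Metric.ball (0 : ℂ) 1) :=
  ⟨rho, fun _ => rfl, rho_strong, Om_bdd, zero_mem, rho_fderiv_ne,
    fun _ hf => ⟨_, refl_isExt hf, not_unique hf⟩⟩
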